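import Pool.Agent.helper35.BQ.Spec

set_option autoImplicit false

open Pool.Agent.helper58.DC Pool.Agent.DI Pool.Agent.DR Pool.Agent.NQ

namespace Pool.Agent.BQ

theorem DWN : DWN_stmt := by
  intro A _ _ a K L h1 h2
  by_contra hne
  have hne' : {V : Subgroup A | a V ≠ 0}.Nonempty := by
    rw [not_forall] at hne
    exact hne
  obtain ⟨V, hV⟩ := (Set.toFinite {V : Subgroup A | a V ≠ 0}).exists_maximal hne'
  have hV0 : a V ≠ 0 := hV.1
  have hKL : ∀ W : Subgroup A, a W ≠ 0 → K ≤ W ∧ W ≤ L := by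
    intro W hW
    by_contra h
    exact hW (h1 W h)
  obtain ⟨U, hU, hsum⟩ := h2 V (hKL V hV0).1 (hKL V hV0).2
  have hUV : U ≤ V := by
    rw [← hU]
    exact le_sup_left
  have hs : ∑ᶠ W : {W : Subgroup A // U ≤ W}, a W.1 = a V := by
    apply finsum_eq_single (fun W : {W : Subgroup A // U ≤ W} => a W.1) ⟨V, hUV⟩
    intro W hW
    by_contra h
    have h3 : V ≤ W.1 := by
      rw [← hU]
      exact sup_le W.2 (hKL W.1 h).1
    have h4 : W.1 ≤ V := hV.2 h h3
    exact hW (Subtype.ext (le_antisymm h4 h3))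
  rw [hs] at hsum
  exact hV0 hsum

end Pool.Agent.BQ
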