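import Pool.Agent.helper7.BQ.Spec

set_option autoImplicit false

namespace Pool.Agent.BQ

open Finset

theorem T2C_int (S : Finset ℤ) (g : ℕ) (hg : 0 < g) (D : ℝ) (hD : 0 ≤ D)
    (h : ∀ s ∈ S, (g : ℤ) ∣ s ∧ |(s : ℝ)| ≤ D) : (#S : ℝ) ≤ 2 * D / g + 1 := by
  have hg' : (0 : ℝ) < g := by exact_mod_cast hg
  have hgZ : (g : ℤ) ≠ 0 := by exact_mod_cast hg.ne'
  obtain ⟨n, hn⟩ : ∃ n : ℕ, n = ⌊D / g⌋₊ := ⟨_, rfl⟩
  have hnD : (n : ℝ) ≤ D / g := by
    rw [hn]
    exact Nat.floor_le (by positivity)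
  have h1 : #S ≤ #(Icc (-(n : ℤ)) n) := by
    refine card_le_card_of_injOn (fun s => s / g) ?_ ?_
    · intro s hs
      obtain ⟨⟨t, ht⟩, h2⟩ := h s (mem_coe.1 hs)
      have e : s / (g : ℤ) = t := by rw [ht, Int.mul_ediv_cancel_left _ hgZ]
      have h3 : |(t : ℝ)| ≤ D / g := by
        rw [le_div_iff₀ hg']
        have h4 : |(s : ℝ)| = |(t : ℝ)| * g := by
          rw [ht]
          push_cast
          rw [abs_mul, abs_of_pos hg']
          ring
        rw [← h4]
        exact h2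
      have h5 : t.natAbs ≤ n := by
        rw [hn]
        refine Nat.le_floor ?_
        have : ((t.natAbs : ℕ) : ℝ) = |(t : ℝ)| := by
          rw [← Int.cast_abs, Int.abs_eq_natAbs]
          norm_num
        rw [this]
        exact h3
      simp only [coe_Icc, Set.mem_Icc, e]
      omega
    · intro s hs s' hs' hss
      obtain ⟨⟨t, ht⟩, -⟩ := h s (mem_coe.1 hs)
      obtain ⟨⟨t', ht'⟩, -⟩ := h s' (mem_coe.1 hs')
      simp only [ht, ht', Int.mul_ediv_cancel_left _ hgZ] at hss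
      rw [ht, ht', hss]
  have h2 : #(Icc (-(n : ℤ)) n) = 2 * n + 1 := by
    rw [Int.card_Icc]
    omega
  rw [h2] at h1
  have h3 : (#S : ℝ) ≤ 2 * n + 1 := by exact_mod_cast h1
  have h4 : 2 * D / g = 2 * (D / g) := by ring
  rw [h4]
  linarith

theorem T2C_class (M g q : ℕ) (hq : 0 < q) (hM : M ≤ g * q) (T : Finset ℕ)
    (hT : ∀ m ∈ T, M < m ∧ m ≤ 2 * M) (h : ∀ m ∈ T, ∀ n ∈ T, (q : ℤ) ∣ (m : ℤ) - n) : #T ≤ g := by
  have h1 : #T ≤ #(range g) := by
    refine card_le_card_of_injOn (fun m => (m - M - 1) / q) ?_ ?_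
    · intro m hm
      obtain ⟨h2, h3⟩ := hT m (mem_coe.1 hm)
      simp only [coe_range, Set.mem_Iio]
      rw [Nat.div_lt_iff_lt_mul hq]
      omega
    · intro m hm n hn hmn
      obtain ⟨h2, h3⟩ := hT m (mem_coe.1 hm)
      obtain ⟨h4, h5⟩ := hT n (mem_coe.1 hn)
      have h6 := h m (mem_coe.1 hm) n (mem_coe.1 hn)
      have h7 : (m - M - 1) % q = (n - M - 1) % q := by
        have h8 : (m - M - 1 : ℕ) ≡ (n - M - 1 : ℕ) [MOD q] := by
          rw [Nat.modEq_iff_dvd]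
          have e : ((n - M - 1 : ℕ) : ℤ) - ((m - M - 1 : ℕ) : ℤ) = -((m : ℤ) - n) := by
            omega
          rw [e]
          exact (dvd_neg).2 h6
        exact h8
      have e1 := Nat.div_add_mod (m - M - 1) q
      have e2 := Nat.div_add_mod (n - M - 1) q
      simp only at hmn
      rw [hmn, h7] at e1
      omega
  simpa using h1

theorem T2C_fiber (M : ℕ) (D : ℝ) (v : ℤ) (hD : 0 ≤ D) (m' : ℕ) (hm : M < m') :
    (#(((Q4M M).filter fun w => dif4 w = v ∧ |(det4 w : ℝ)| ≤ D).filter fun w => w.1.2 = m') : ℝ) ≤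
      (2 * D / (Nat.gcd v.natAbs m') + 1) * min (Nat.gcd v.natAbs m') M := by
  classical
  obtain ⟨g, hg⟩ : ∃ g, g = Nat.gcd v.natAbs m' := ⟨_, rfl⟩
  rw [← hg]
  have hm0 : 0 < m' := by omega
  have hg0 : 0 < g := by rw [hg]; exact Nat.gcd_pos_of_pos_right _ hm0
  have hgm : g ∣ m' := by rw [hg]; exact Nat.gcd_dvd_right _ _
  have hgv : (g : ℤ) ∣ v := by
    rw [Int.natCast_dvd, hg]
    exact Nat.gcd_dvd_left _ _
  obtain ⟨q, hq⟩ := hgm
  have hq0 : 0 < q := Nat.pos_of_mul_pos_left (hq ▸ hm0)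
  obtain ⟨W, hW⟩ : ∃ W, W = ((Q4M M).filter fun w => dif4 w = v ∧ |(det4 w : ℝ)| ≤ D).filter
    fun w => w.1.2 = m' := ⟨_, rfl⟩
  rw [← hW]
  have hmem : ∀ w ∈ W, (M < w.1.1 ∧ w.1.1 ≤ 2 * M) ∧ w.1.2 = m' ∧ (w.2.2 : ℤ) = m' - v ∧
      |(det4 w : ℝ)| ≤ D := by
    intro w hw
    rw [hW, mem_filter, mem_filter, Q4M, mem_product, mem_product, mem_product] at hw
    simp only [mem_Ioc] at hw
    obtain ⟨⟨⟨⟨h1, -⟩, -⟩, h2, h3⟩, h4⟩ := hw
    refine ⟨h1, h4, ?_, h3⟩
    unfold dif4 at h2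
    rw [h4] at h2
    linarith
  have hdet : ∀ w ∈ W, det4 w = (w.1.1 : ℤ) * (m' - v) - m' * w.2.1 := by
    intro w hw
    obtain ⟨-, h2, h3, -⟩ := hmem w hw
    unfold det4
    rw [h2, h3]
  have hgdet : ∀ w ∈ W, (g : ℤ) ∣ det4 w := by
    intro w hw
    rw [hdet w hw]
    have h1 : (g : ℤ) ∣ m' := by
      rw [hq]
      push_cast
      exact dvd_mul_right _ _
    exact dvd_sub (Dvd.dvd.mul_left (dvd_sub h1 hgv) _) (Dvd.dvd.mul_right h1 _)
  have hS : (#(W.image det4) : ℝ) ≤ 2 * D / g + 1 := by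
    refine T2C_int _ g hg0 D hD fun s hs => ?_
    obtain ⟨w, hw, rfl⟩ := mem_image.1 hs
    exact ⟨hgdet w hw, (hmem w hw).2.2.2⟩
  have hfib : ∀ s ∈ W.image det4, #(W.filter fun w => det4 w = s) ≤ min g M := by
    intro s _
    have hinj : Set.InjOn (fun w : (ℕ × ℕ) × (ℕ × ℕ) => w.1.1) (W.filter fun w => det4 w = s) := by
      intro w hw w' hw' hww
      rw [mem_coe, mem_filter] at hw hw'
      simp only at hww
      obtain ⟨-, a2, a3, -⟩ := hmem w hw.1
      obtain ⟨-, b2, b3, -⟩ := hmem w' hw'.1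
      have a4 := hdet w hw.1
      have b4 := hdet w' hw'.1
      rw [hw.2] at a4
      rw [hw'.2] at b4
      have h1 : (m' : ℤ) * w.2.1 = m' * w'.2.1 := by
        rw [hww] at a4
        linarith
      have h2 : (w.2.1 : ℤ) = w'.2.1 := by
        have h0 : (m' : ℤ) ≠ 0 := by exact_mod_cast hm0.ne'
        exact mul_left_cancel₀ h0 h1
      have h3 : w.2.1 = w'.2.1 := by exact_mod_cast h2
      have h4 : w.2.2 = w'.2.2 := by
        have : (w.2.2 : ℤ) = w'.2.2 := by rw [a3, b3]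
        exact_mod_cast this
      have h5 : w.1.2 = w'.1.2 := by rw [a2, b2]
      exact Prod.ext (Prod.ext hww h5) (Prod.ext h3 h4)
    have hcard : #(W.filter fun w => det4 w = s) =
        #((W.filter fun w => det4 w = s).image fun w => w.1.1) := (card_image_of_injOn hinj).symm
    rw [hcard]
    obtain ⟨T, hT⟩ : ∃ T, T = (W.filter fun w => det4 w = s).image fun w => w.1.1 := ⟨_, rfl⟩
    rw [← hT]
    have hTm : ∀ m ∈ T, ∃ w ∈ W, det4 w = s ∧ w.1.1 = m := by
      intro m hm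
      rw [hT] at hm
      obtain ⟨w, hw, h1⟩ := mem_image.1 hm
      rw [mem_filter] at hw
      exact ⟨w, hw.1, hw.2, h1⟩
    have hTI : ∀ m ∈ T, M < m ∧ m ≤ 2 * M := by
      intro m hm
      obtain ⟨w, hw, -, rfl⟩ := hTm m hm
      exact (hmem w hw).1
    refine le_min ?_ ?_
    · refine T2C_class M g q hq0 (by omega) T hTI ?_
      intro m hm n hn
      obtain ⟨w, hw, hws, rfl⟩ := hTm m hm
      obtain ⟨w', hw', hws', rfl⟩ := hTm n hn
      have e1 := hdet w hw
      have e2 := hdet w' hw'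
      rw [hws] at e1
      rw [hws'] at e2
      -- `m'` divides `(m - n) v`
      have h1 : (m' : ℤ) ∣ ((w.1.1 : ℤ) - w'.1.1) * v := by
        refine ⟨(w.1.1 : ℤ) - w'.1.1 - (w.2.1 - w'.2.1), ?_⟩
        linear_combination e1 - e2
      obtain ⟨v', hv'⟩ := hgv
      have h2 : IsCoprime (q : ℤ) v' := by
        rw [Int.isCoprime_iff_gcd_eq_one]
        have h3 : Nat.gcd v.natAbs m' = g * Nat.gcd v'.natAbs q := by
          rw [hv', hq, Int.natAbs_mul, Int.natAbs_natCast, Nat.gcd_mul_left]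
        rw [← hg] at h3
        have h4 : Nat.gcd v'.natAbs q = 1 := by
          have : g * Nat.gcd v'.natAbs q = g * 1 := by omega
          exact Nat.eq_of_mul_eq_mul_left hg0 this
        change Nat.gcd (Int.natAbs (q : ℤ)) v'.natAbs = 1
        rw [Int.natAbs_natCast, Nat.gcd_comm]
        exact h4
      have h3 : (q : ℤ) ∣ ((w.1.1 : ℤ) - w'.1.1) * v' := by
        rw [hv', hq] at h1
        obtain ⟨z, hz⟩ := h1
        refine ⟨z, ?_⟩
        have h0 : (g : ℤ) ≠ 0 := by exact_mod_cast hg0.ne'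
        apply mul_left_cancel₀ h0
        push_cast at hz
        linarith
      exact h2.dvd_of_dvd_mul_right h3
    · have h1 : T ⊆ Ioc M (2 * M) := fun m hm => mem_Ioc.2 (hTI m hm)
      have h2 := card_le_card h1
      rw [Nat.card_Ioc] at h2
      omega
  have hcardW : #W ≤ #(W.image det4) * min g M := by
    rw [card_eq_sum_card_image det4 W]
    calc ∑ s ∈ W.image det4, #(W.filter fun w => det4 w = s) ≤ ∑ s ∈ W.image det4, min g M :=
          sum_le_sum hfib
      _ = _ := by rw [sum_const, smul_eq_mul]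
  calc (#W : ℝ) ≤ #(W.image det4) * ((min g M : ℕ) : ℝ) := by exact_mod_cast hcardW
    _ ≤ (2 * D / g + 1) * ((min g M : ℕ) : ℝ) := by gcongr
    _ = _ := by push_cast; rfl

theorem T2C_gcd (M : ℕ) (n : ℕ) (hn : n ≠ 0) :
    ∑ m ∈ Ioc M (2 * M), Nat.gcd n m ≤ 2 * M * #(n.divisors) := by
  have h1 : ∀ m ∈ Ioc M (2 * M), Nat.gcd n m ≤ ∑ g ∈ n.divisors, if g ∣ m then g else 0 := by
    intro m _
    have h2 : Nat.gcd n m ∈ n.divisors := Nat.mem_divisors.2 ⟨Nat.gcd_dvd_left _ _, hn⟩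
    have h3 := single_le_sum (f := fun g => if g ∣ m then g else 0) (fun _ _ => Nat.zero_le _) h2
    simp only [if_pos (Nat.gcd_dvd_right n m)] at h3
    exact h3
  refine (sum_le_sum h1).trans ?_
  rw [sum_comm]
  have h4 : ∀ g ∈ n.divisors, ∑ m ∈ Ioc M (2 * M), (if g ∣ m then g else 0) ≤ 2 * M := by
    intro g hg
    have hg0 : 0 < g := Nat.pos_of_mem_divisors hg
    rw [← sum_filter, sum_const, smul_eq_mul]
    have h5 : #((Ioc M (2 * M)).filter fun m => g ∣ m) ≤ #((Ioc 0 (2 * M)).filter fun m => g ∣ m) := by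
      refine card_le_card (filter_subset_filter _ ?_)
      intro m hm
      rw [mem_Ioc] at hm ⊢
      omega
    rw [Nat.Ioc_filter_dvd_card_eq_div] at h5
    exact (Nat.mul_le_mul_right _ h5).trans (Nat.div_mul_le_self _ _)
  refine (sum_le_sum h4).trans ?_
  rw [sum_const, smul_eq_mul, mul_comm]

theorem T2C : T2C_stmt := by
  intro M D v hM hD
  have hMr : (0 : ℝ) < M := by exact_mod_cast hM
  have hsplit : (#((Q4M M).filter fun w => dif4 w = v ∧ |(det4 w : ℝ)| ≤ D) : ℝ) ≤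
      ∑ m' ∈ Ioc M (2 * M), (2 * D / (Nat.gcd v.natAbs m') + 1) *
        min ((Nat.gcd v.natAbs m' : ℕ) : ℝ) M := by
    have h1 : #((Q4M M).filter fun w => dif4 w = v ∧ |(det4 w : ℝ)| ≤ D) =
        ∑ m' ∈ Ioc M (2 * M), #(((Q4M M).filter fun w => dif4 w = v ∧ |(det4 w : ℝ)| ≤ D).filter
          fun w => w.1.2 = m') := by
      refine card_eq_sum_card_fiberwise fun w hw => ?_
      rw [mem_coe, mem_filter, Q4M, mem_product, mem_product, mem_product] at hw
      rw [mem_coe]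
      exact hw.1.1.2
    rw [h1]
    push_cast
    refine sum_le_sum fun m' hm' => ?_
    rw [mem_Ioc] at hm'
    have h2 := T2C_fiber M D v hD m' hm'.1
    rw [Nat.cast_min] at h2
    exact h2
  constructor
  · intro hv
    refine hsplit.trans ?_
    have h1 : ∀ m' ∈ Ioc M (2 * M), (2 * D / (Nat.gcd v.natAbs m') + 1) *
        min ((Nat.gcd v.natAbs m' : ℕ) : ℝ) M ≤ 2 * D + ((Nat.gcd v.natAbs m' : ℕ) : ℝ) := by
      intro m' hm'
      have hg0 : (0 : ℝ) < ((Nat.gcd v.natAbs m' : ℕ) : ℝ) := by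
        have : 0 < Nat.gcd v.natAbs m' := Nat.gcd_pos_of_pos_left _ (Int.natAbs_pos.2 hv)
        exact_mod_cast this
      calc (2 * D / (Nat.gcd v.natAbs m') + 1) * min ((Nat.gcd v.natAbs m' : ℕ) : ℝ) M
          ≤ (2 * D / (Nat.gcd v.natAbs m') + 1) * ((Nat.gcd v.natAbs m' : ℕ) : ℝ) :=
            mul_le_mul_of_nonneg_left (min_le_left _ _) (by positivity)
        _ = _ := by field_simp
    refine (sum_le_sum h1).trans ?_
    rw [sum_add_distrib, sum_const, Nat.card_Ioc, nsmul_eq_mul]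
    have h2 := T2C_gcd M v.natAbs (Int.natAbs_ne_zero.2 hv)
    have h3 : ∑ m' ∈ Ioc M (2 * M), ((Nat.gcd v.natAbs m' : ℕ) : ℝ) ≤
        2 * M * #(v.natAbs.divisors) := by exact_mod_cast h2
    have h4 : ((2 * M - M : ℕ) : ℝ) = M := by
      have : 2 * M - M = M := by omega
      rw [this]
    rw [h4]
    have h5 : (0 : ℝ) ≤ #(v.natAbs.divisors) := Nat.cast_nonneg _
    nlinarith [mul_nonneg hMr.le hD, mul_nonneg hMr.le h5]
  · intro hv
    refine hsplit.trans ?_
    have h1 : ∀ m' ∈ Ioc M (2 * M), (2 * D / (Nat.gcd v.natAbs m') + 1) *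
        min ((Nat.gcd v.natAbs m' : ℕ) : ℝ) M ≤ 2 * D + M := by
      intro m' hm'
      rw [mem_Ioc] at hm'
      rw [hv, Int.natAbs_zero, Nat.gcd_zero_left]
      have hm0 : (0 : ℝ) < m' := by
        have : 0 < m' := by omega
        exact_mod_cast this
      have hmM : (M : ℝ) ≤ m' := by exact_mod_cast hm'.1.le
      calc (2 * D / (m' : ℝ) + 1) * min (m' : ℝ) M
          ≤ (2 * D / (m' : ℝ) + 1) * M := mul_le_mul_of_nonneg_left (min_le_right _ _) (by positivity)
        _ = 2 * D * (M / m') + M := by ring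
        _ ≤ 2 * D * 1 + M := by
            gcongr
            rw [div_le_one hm0]
            exact hmM
        _ = _ := by ring
    refine (sum_le_sum h1).trans ?_
    rw [sum_const, Nat.card_Ioc, nsmul_eq_mul]
    have h4 : ((2 * M - M : ℕ) : ℝ) = M := by
      have : 2 * M - M = M := by omega
      rw [this]
    rw [h4]
    nlinarith

end Pool.Agent.BQ
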